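import Pool.Agent.Q197.FM.Three3
import Pool.Agent.Q217.TG.ValuesThree

/-!
# Euclid's lemma for almost all values `2 ^ x + 2 ^ y + 2 ^ z + 1`

Call `N` a value for `n` if `n = x² + y² + z² + 4 w²` and `N = 2 ^ x + 2 ^ y + 2 ^ z + 1`.  Say that
Euclid's lemma holds for `N` (with the ranges for `n`) if `N ∣ u` or `N ∣ v` whenever `u v = q N` and
`u`, `v`, `q` are sums of `k₁`, `k₂`, `k₃` terms `a 2 ^ α`, `|a| < 2 ^ h`, where
`k₁ + k₂ + k₃ ≤ (log n) / 100` and `h ≤ n ^ (1 / 50)`.  Then `N` is no product of two integers `≠ ± 1`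
which are sums of `k₁`, `k₂` terms `± 2 ^ i` with `k₁ + k₂ + 1 ≤ (log n) / 100`.

(1) For all large `n`, Euclid's lemma holds for all values `N` for `n` with at most `n ^ (7 / 10)`
exceptions.
(2) For every `ε > 0` there is `c > 0` such that every large odd `n` has at least `n ^ (1 - ε)` different
values `N` for which Euclid's lemma holds and which have no prime factor `≤ 11`; if `3 ∣ n` or
`n ≡ 13 mod 32`, every prime factor of these `N` is larger than `c log n log log n / log log log n` or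
`≡ 1 mod l²` for a prime `l ≥ 5` which divides `(3 n - 2) (9 n - 2)`.
-/

set_option autoImplicit false

namespace Pool.Agent.Results.MP_f6c7cf_nt.GenericExponents

open Finset

/-- `N` is a value for `n`. -/
def Value (n N : ℕ) : Prop :=
  ∃ x y z w : ℕ, n = x ^ 2 + y ^ 2 + z ^ 2 + 4 * w ^ 2 ∧ N = 2 ^ x + 2 ^ y + 2 ^ z + 1

/-- `u` is a sum of `k` terms `a 2 ^ α` with `|a| < 2 ^ h`. -/
def Windows (k h : ℕ) (u : ℤ) : Prop :=
  ∃ (a : Fin k → ℤ) (α : Fin k → ℕ), (∀ i, |a i| < 2 ^ h) ∧ u = ∑ i, a i * 2 ^ α i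

/-- Euclid's lemma for `N` among sparse integers; the ranges depend on `n`. -/
def Euclid (n N : ℕ) : Prop :=
  ∀ (k₁ k₂ k₃ h : ℕ) (u v q : ℤ), (k₁ + k₂ + k₃ : ℝ) ≤ Real.log n / 100 →
    (h : ℝ) ≤ (n : ℝ) ^ ((1 : ℝ) / 50) → Windows k₁ h u → Windows k₂ h v → Windows k₃ h q →
    u * v = q * N → (N : ℤ) ∣ u ∨ (N : ℤ) ∣ v

/-- All factorizations of `N` into two sparse integers are trivial. -/
def NoSparseFactorization (n N : ℕ) : Prop :=
  ∀ (k₁ k₂ : ℕ) (u v : ℤ), (k₁ + k₂ + 1 : ℝ) ≤ Real.log n / 100 → Windows k₁ 1 u →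
    Windows k₂ 1 v → u * v = N → (u = 1 ∨ u = -1) ∨ (v = 1 ∨ v = -1)

theorem nsf {n N : ℕ} (hN : N ≠ 0) (hx : 300 ≤ Real.log n) (h : Euclid n N) :
    NoSparseFactorization n N :=
  fun _ _ _ _ hk hu hv huv => Q217.TG.trivial_factor₃ hN h hx hk hu hv huv

theorem part1 {n : ℕ} (hx : 300 ≤ Real.log n)
    (hD : Q217.TG.DivBound ⌊(n : ℝ) ^ ((1 : ℝ) / 40)⌋₊ n ⌊(n : ℝ) ^ ((1 : ℝ) / 40)⌋₊) :
    ∃ F : Finset ℕ, (F.card : ℝ) ≤ (n : ℝ) ^ ((7 : ℝ) / 10) ∧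
      ∀ N : ℕ, Value n N → N ∉ F → Euclid n N ∧ NoSparseFactorization n N := by
  obtain ⟨F, hF, h⟩ := Q217.TG.few_exceptions₃ hx hD
  refine ⟨F, hF, ?_⟩
  rintro N ⟨x, y, z, w, hn, rfl⟩ hNF
  have h1 : Euclid n (2 ^ x + 2 ^ y + 2 ^ z + 1) := h x y z w hn hNF
  exact ⟨h1, nsf (by positivity) hx h1⟩

/-- exceptional prime factors -/
theorem exc_cases {n q : ℕ} (hq : q.Prime) (h : Pool.Agent.Q197.FM.ExcP n q)
    (hn : 3 ∣ n ∨ n % 32 = 13) :
    ∃ l : ℕ, l.Prime ∧ 5 ≤ l ∧ (l : ℤ) ∣ (3 * n - 2) * (9 * n - 2) ∧ l ^ 2 ∣ q - 1 := by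
  obtain ⟨h2, h3⟩ := h
  have : Fact q.Prime := ⟨hq⟩
  have h20 : (2 : ZMod q) ≠ 0 := by
    intro h
    have h3 : ((2 : ℕ) : ZMod q) = 0 := by exact_mod_cast h
    rw [ZMod.natCast_eq_zero_iff] at h3
    exact h2 ((Nat.prime_dvd_prime_iff_eq hq Nat.prime_two).1 h3)
  have hdvd : orderOf (2 : ZMod q) ∣ q - 1 := ZMod.orderOf_dvd_card_sub_one h20
  rcases h3 with ⟨l, hlp, hl5, hld, hln⟩ | ⟨h4, h5, _, _⟩
  · exact ⟨l, hlp, hl5, hln, hld.trans hdvd⟩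
  · rcases hn with h6 | h6
    · exact absurd h6 h4
    · exact absurd h6 h5

/-- **Euclid's lemma for almost all values.** -/
theorem result :
    (∃ n₀ : ℕ, ∀ n : ℕ, n₀ ≤ n →
      ∃ F : Finset ℕ, (F.card : ℝ) ≤ (n : ℝ) ^ ((7 : ℝ) / 10) ∧
        ∀ N : ℕ, Value n N → N ∉ F → Euclid n N ∧ NoSparseFactorization n N) ∧
    (∀ ε : ℝ, 0 < ε → ∃ c : ℝ, 0 < c ∧ ∃ n₀ : ℕ, ∀ n : ℕ, n₀ ≤ n → Odd n →
      ∃ T : Finset ℕ, (n : ℝ) ^ (1 - ε) ≤ (T.card : ℝ) ∧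
        ∀ N ∈ T, Value n N ∧ Euclid n N ∧ NoSparseFactorization n N ∧
          (∀ q : ℕ, q.Prime → q ∣ N → 11 < q ∧
            (3 ∣ n ∨ n % 32 = 13 →
              c * (Real.log n * Real.log (Real.log n) / Real.log (Real.log (Real.log n))) < q ∨
              ∃ l : ℕ, l.Prime ∧ 5 ≤ l ∧ (l : ℤ) ∣ (3 * n - 2) * (9 * n - 2) ∧ l ^ 2 ∣ q - 1))) := by
  classical
  have hlog : Filter.Tendsto (fun n : ℕ => Real.log (n : ℝ)) Filter.atTop Filter.atTop :=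
    Real.tendsto_log_atTop.comp tendsto_natCast_atTop_atTop
  constructor
  · obtain ⟨n₀, h0⟩ := Filter.eventually_atTop.1
      ((hlog.eventually_ge_atTop 300).and Q217.TG.divBound_eventually)
    exact ⟨n₀, fun n hn => part1 (h0 n hn).1 (h0 n hn).2⟩
  intro ε hε
  obtain ⟨c, hc, n₀, hT⟩ := Pool.Agent.Q197.FM.three_values (min ε (1 / 4) / 2)
    (by
      have : 0 < min ε (1 / 4) := lt_min hε (by norm_num)
      linarith)
  obtain ⟨n₁, h1⟩ := Filter.eventually_atTop.1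
    (((hlog.eventually_ge_atTop (max 300 (2 / ε))).and Q217.TG.divBound_eventually).and
      (Pool.Agent.Q197.FM.level_large c 11 hc))
  refine ⟨c, hc, n₀ + n₁, ?_⟩
  intro n hn hodd
  obtain ⟨T, hT1, hT2⟩ := hT n (by omega) hodd
  obtain ⟨⟨h2, hD⟩, hlev⟩ := h1 n (by omega)
  have hx : 300 ≤ Real.log n := (le_max_left _ _).trans h2
  have hx2 : 2 / ε ≤ Real.log n := (le_max_right _ _).trans h2
  obtain ⟨F, hF1, hF2⟩ := part1 hx hD
  refine ⟨T \ F, ?_, ?_⟩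
  · have h3 := Q217.TG.powers₃ hε hx hx2
    have h4 : (T.card : ℝ) ≤ (T \ F).card + F.card := by
      have h5 : T.card ≤ (T \ F).card + F.card := Finset.card_le_card_sdiff_add_card
      exact_mod_cast h5
    linarith
  · intro N hN
    rw [Finset.mem_sdiff] at hN
    obtain ⟨h3, h4⟩ := hT2 N hN.1
    obtain ⟨h5, h6⟩ := hF2 N h3 hN.2
    refine ⟨h3, h5, h6, ?_⟩
    intro q hq hqN
    rcases lt_or_ge (c * (Real.log n * Real.log (Real.log n) / Real.log (Real.log (Real.log n))))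
      (q : ℝ) with hlt | hge
    · refine ⟨?_, fun _ => Or.inl hlt⟩
      have h7 : (11 : ℝ) < q := by nlinarith
      exact_mod_cast h7
    · have h7 := h4 q hq hqN hge
      have h8 := Pool.Agent.Q197.FM.exc_small hq h7
      exact ⟨by omega, fun hn3 => Or.inr (exc_cases hq h7 hn3)⟩

end Pool.Agent.Results.MP_f6c7cf_nt.GenericExponents
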