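import Pool.Agent.Q106.IV.Low3
import Pool.Agent.Q106.IV.Inst3

/-!
# MP_f6c7cf_nt: the question for arbitrary random sets near the random models of the primes

`Value n N`: `N = 2^x + 2^y + 2^z + 1` with `n = x² + y² + z² + 4 w²`. `DensL z C p`: probabilities `p N = (log N)^(-1+o(1))` on
the `N` whose prime factors exceed `z + C log log N`, and at most so large on the others; `sievedL z C` is one such choice.
`Suit n z`: `n` is odd and has suitable residues; all odd `n` are suitable for the level `11`. The model contains each `N`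
independently with probability `p N`; `Un p` is the set of the `N` with `0 < p N < 1`, and for any random set `A` of natural
numbers `relEnt p μ A (ind (Un p) x)` is the relative entropy of the law of `A ∩ Un p ∩ [0, x)` with respect to the model.
-/

set_option autoImplicit false

namespace Pool.Agent.Results.MP_f6c7cf_nt.InformationThreshold

open MeasureTheory Filter Pool.Agent.Q106.IV
open Pool.Agent.Q120.ET (IsRandomSet)
open Pool.Agent.Q120.ME (relEnt ind)
open Pool.Agent.Q197.SP.Rf6c (Value)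

/-- **The question is answered positively for all suitable large `n` by all random sets of information `(log x)^θ`, `θ < 1`; not for
`θ > 1`.** -/
theorem result :
    (∀ z C : ℝ, DensL z C (sievedL z C)) ∧ (∀ n : ℕ, Odd n → Suit n 11) ∧
    ∀ (z C : ℝ) (p : ℕ → ℝ), 0 ≤ C → DensL z C p →
      (∀ θ ε : ℝ, 0 ≤ θ → θ < 1 → 0 < ε →
        ∀ (Ω : Type) [MeasurableSpace Ω] (μ : Measure Ω) [IsProbabilityMeasure μ] (A : Ω → Set ℕ), IsRandomSet A →
          (∀ᶠ x : ℕ in atTop, relEnt p μ A (ind (Un p) x) ≤ Real.log x ^ θ) →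
          ∀ᵐ ω ∂μ, ∀ᶠ n : ℕ in atTop, Suit n (z + C * Real.log n) →
            ∃ T : Finset ℕ, (n : ℝ) ^ (1 / 2 - ε) ≤ (T.card : ℝ) ∧ ∀ N ∈ T, N ∈ A ω ∧ Value n N) ∧
      ∀ θ : ℝ, 1 < θ →
        ∃ (Ω : Type) (_ : MeasurableSpace Ω) (μ : Measure Ω) (_ : IsProbabilityMeasure μ) (A : Ω → Set ℕ), IsRandomSet A ∧
          (∀ᶠ x : ℕ in atTop, relEnt p μ A (ind (Un p) x) ≤ Real.log x ^ θ) ∧
          ∀ᵐ ω ∂μ, ∃ᶠ n : ℕ in atTop, Suit n (z + C * Real.log n) ∧ ∀ N : ℕ, Value n N → N ∉ A ω := by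
  refine ⟨densL_sieved, fun n hn => ⟨hn, Or.inl (by norm_num), fun l _ h5 _ => ?_⟩, fun z C p hC hp =>
    ⟨fun θ ε h0 h1 hε => info_values hp.range (hyp_three hC hp) h0 h1 hε, fun θ hθ => ?_⟩⟩
  · have : (5 : ℝ) ≤ l := by exact_mod_cast h5
    nlinarith
  · obtain ⟨Ω, i1, μ, i2, A, hA, hent, hfree⟩ := delete_set hp.range W3
    refine ⟨Ω, i1, μ, i2, A, hA, ?_, ?_⟩
    · filter_upwards [cost_W3 hp.upper hθ] with x hx
      exact (hent x).trans hx
    · filter_upwards [hfree] with ω hω
      have h1 : Tendsto (fun i : ℕ => RR i ^ 2) atTop atTop := by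
        refine tendsto_atTop_mono (fun i => ?_) tendsto_id
        have h2 := two_pow_le_RR i
        have h3 : i < 2 ^ i := Nat.lt_two_pow_self
        simp only [id]
        nlinarith
      have h2 : ∀ᶠ i : ℕ in atTop, Suit (RR i ^ 2) (z + C * Real.log ((RR i ^ 2 : ℕ) : ℝ)) ∧ ∀ N : ℕ, Value (RR i ^ 2) N → N ∉ A ω := by
        filter_upwards [suit_RR (z := z) hC] with i hi
        exact ⟨hi, fun N hN hNA => hω N hNA ⟨i, hN⟩⟩
      exact h1.frequently h2.frequently

end Pool.Agent.Results.MP_f6c7cf_nt.InformationThreshold
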