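import Pool.Agent.Q106.IV.Inst3
import Pool.Agent.Q167.LF.G
import Pool.Agent.Q167.LF.H

/-!
# MP_f6c7cf_nt: how much independence do the random models of the primes need?

`Value n N`: `N = 2^x + 2^y + 2^z + 1` with `n = x² + y² + z² + 4 w²`. `LimModel μ p κ A`: the random set `A` has
independence of order `κ`: every finite set `T` with at most `κ` elements is contained in `A` with probability the product
of the `p N`, `N ∈ T`. `DensL z C p`: probabilities `p N = (log N)^(-1+o(1))` on the `N` whose prime factors exceed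
`z + C log log N`, and at most so large on the others; `sievedL z C` is one such choice. `Suit n z`: `n` is odd and has
suitable residues; all odd `n` are suitable for the level `11`.
-/

set_option autoImplicit false

namespace Pool.Agent.Results.MP_f6c7cf_nt.LimitedIndependence

open MeasureTheory Filter
open Pool.Agent.Q106.IV (DensL Suit sievedL densL_sieved hyp_three VV VV_pos)
open Pool.Agent.Q197.SP.Rf6c (Value)
open Q167.WK (LimModel)

universe u

/-- `S` contains at least `n ^ (1/2 - ε)` values for `n`. -/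
def Rich (ε : ℝ) (n : ℕ) (S : Set ℕ) : Prop :=
  ∃ T : Finset ℕ, (n : ℝ) ^ (1 / 2 - ε) ≤ (T.card : ℝ) ∧ ∀ N ∈ T, N ∈ S ∧ Value n N

lemma ncard_eq (X : ℕ) (P : ℕ → Prop) [DecidablePred P] :
    {n : ℕ | n ≤ X ∧ P n}.ncard = ((Finset.range (X + 1)).filter P).card := by
  rw [← Set.ncard_coe_finset]
  congr 1
  ext n
  rw [Finset.mem_coe, Finset.mem_filter, Finset.mem_range]
  exact ⟨fun h => ⟨by have := h.1; omega, h.2⟩, fun h => ⟨by have := h.1; omega, h.2⟩⟩

theorem result :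
    (∀ z C : ℝ, DensL z C (sievedL z C)) ∧ (∀ n : ℕ, Odd n → Suit n 11) ∧
    (∀ z : ℝ, ∃ C : ℝ, ∀ᶠ N : ℕ in atTop, sievedL z 0 N ≤ C / Real.log N) ∧
    (∀ (z C : ℝ) (p : ℕ → ℝ), 0 ≤ C → DensL z C p →
      ∀ (Ω : Type u) [MeasurableSpace Ω] (μ : Measure Ω) [IsProbabilityMeasure μ]
        (A : Ω → Set ℕ) (κ : ℕ), LimModel μ p κ A → ∀ ε : ℝ, 0 < ε →
        -- (1) sets with few elements
        (∀ (h : ℕ) (δ : ℝ) (S : Set ℕ), 2 * h ≤ κ → 0 < δ →
          (∀ᶠ X : ℕ in atTop, ({n : ℕ | n ≤ X ∧ n ∈ S}.ncard : ℝ) ≤ (X : ℝ) ^ ((h : ℝ) / 2 - δ)) →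
          ∀ᵐ ω ∂μ, ∀ᶠ n : ℕ in atTop, n ∈ S → Suit n (z + C * Real.log n) → Rich ε n (A ω)) ∧
        -- order six: all `n`
        (6 ≤ κ → ∀ᵐ ω ∂μ, ∀ᶠ n : ℕ in atTop, Suit n (z + C * Real.log n) → Rich ε n (A ω)) ∧
        -- (2) orders four and two: the number of exceptions
        (4 ≤ κ → ∀ᵐ ω ∂μ, ∀ᶠ X : ℕ in atTop,
          ({n : ℕ | n ≤ X ∧ (Suit n (z + C * Real.log n) ∧ ¬ Rich ε n (A ω))}.ncard : ℝ) ≤
            (X : ℝ) ^ ε) ∧
        (2 ≤ κ → ∀ᵐ ω ∂μ, ∀ᶠ X : ℕ in atTop,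
          ({n : ℕ | n ≤ X ∧ (Suit n (z + C * Real.log n) ∧ ¬ Rich ε n (A ω))}.ncard : ℝ) ≤
            (X : ℝ) ^ (1 / 2 + ε))) ∧
    -- (3) order three is not enough
    ∀ (z C : ℝ) (p : ℕ → ℝ), (∀ N, 0 ≤ p N ∧ p N ≤ 1) → (∀ᶠ N : ℕ in atTop, p N ≤ C / Real.log N) →
      ∃ S : Set ℕ, (∀ n ∈ S, Suit n z) ∧ (∀ X : ℕ, {n : ℕ | n ≤ X ∧ n ∈ S}.ncard ≤ Nat.sqrt X) ∧
        ∃ (Ω : Type) (_ : MeasurableSpace Ω) (P : Measure Ω) (_ : IsProbabilityMeasure P)
          (A : Ω → Set ℕ), LimModel P p 3 A ∧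
          ∀ᵐ ω ∂P, ∃ᶠ n : ℕ in atTop, n ∈ S ∧ ∀ N, Value n N → N ∉ A ω := by
  classical
  refine ⟨densL_sieved, fun n hn => ⟨hn, Or.inl (by norm_num), fun l _ h5 _ => ?_⟩, ?_, ?_, ?_⟩
  · have : (5 : ℝ) ≤ l := by exact_mod_cast h5
    nlinarith
  · intro z
    have hlog : Tendsto (fun N : ℕ => Real.log N) atTop atTop :=
      Real.tendsto_log_atTop.comp tendsto_natCast_atTop_atTop
    refine ⟨1 / VV ⌊z⌋₊, ?_⟩
    filter_upwards [hlog.eventually_gt_atTop 0] with N hN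
    have hV := VV_pos ⌊z⌋₊
    unfold sievedL
    split_ifs
    · refine (min_le_right _ _).trans (le_of_eq ?_)
      rw [zero_mul, add_zero, div_div]
    · positivity
  · intro z C p hC hp Ω _ μ _ A κ hA ε hε
    have hp0 : ∀ i, 0 ≤ p i := fun i => (hp.range i).1
    have hp1 : ∀ i, p i ≤ 1 := fun i => (hp.range i).2
    have hyp : Q167.LF.Hyp Value (fun n => Suit n (z + C * Real.log n)) p := by
      intro ε hε
      filter_upwards [hyp_three hC hp ε hε] with n hn hG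
      obtain ⟨T, hT1, hT2⟩ := hn hG
      exact ⟨T, hT1, fun N hN => ⟨(hT2 N hN).1, (hT2 N hN).2.2.1⟩⟩
    refine ⟨?_, ?_, ?_, ?_⟩
    · intro h δ S hK hδ hS
      refine Q167.LF.sparse_good hA hp0 hp1 hyp hK hδ ?_ hε
      filter_upwards [hS] with X hX
      rw [ncard_eq X (fun n => n ∈ S)] at hX
      convert hX
    · intro hK
      exact Q167.LF.all_good hA hp0 hp1 hyp hK hε
    · intro hK
      have h1 := Q167.LF.few_bad hA hp0 hp1 hyp (h := 2) (by omega) (e := 0) le_rfl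
        (by norm_num) hε
      filter_upwards [h1] with ω hω
      filter_upwards [hω] with X hX
      rw [zero_add] at hX
      rw [ncard_eq X (fun n => Suit n (z + C * Real.log n) ∧ ¬ Rich ε n (A ω))]
      exact hX
    · intro hK
      have h1 := Q167.LF.few_bad hA hp0 hp1 hyp (h := 1) (by omega) (e := 1 / 2) (by norm_num)
        (by norm_num) hε
      filter_upwards [h1] with ω hω
      filter_upwards [hω] with X hX
      rw [ncard_eq X (fun n => Suit n (z + C * Real.log n) ∧ ¬ Rich ε n (A ω))]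
      exact hX
  · intro z C p hp hpC
    exact Q167.LF.neg z (fun N => (hp N).1) (fun N => (hp N).2) hpC

end Pool.Agent.Results.MP_f6c7cf_nt.LimitedIndependence
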