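import Pool.Agent.Q197.SP.Rf6c

/-!
# The question for random sets of integers

The primes are replaced by a random set `A` of natural numbers with independent events `N ∈ A`, of probability at least
`(log N) ^ (-β)` for all large `N` without prime factors up to a level `z`. Almost surely at least
`n ^ (1 - β / 2 - ε)` different numbers `N = 2^x + 2^y + 2^z + 1` with `n = x² + y² + z² + 4 w²` lie in `A`, for all
large odd `n` if `z = 11`, and for the large odd `n` with `3 ∣ n` or `n ≡ 13 mod 32` for which `(3 n - 2) (9 n - 2)` has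
no prime factor `l ≥ 5` with `l² ≤ z`, for every constant `z` and for `z = K log log N` (then with `l² ≤ K log n`).
-/

set_option autoImplicit false

namespace Pool.Agent.Results.MP_f6c7cf_nt.RandomPrimes

open MeasureTheory ProbabilityTheory Filter Pool.Agent.Q197.SP.Rf6c

theorem result (ε : ℝ) (hε : 0 < ε) (β : ℝ) (hβ : 0 ≤ β) (hβε : β / 2 + ε ≤ 1) :
    ∀ (Ω : Type) [MeasurableSpace Ω] (μ : Measure Ω) [IsProbabilityMeasure μ] (A : Ω → Set ℕ),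
      (∀ N : ℕ, MeasurableSet {ω | N ∈ A ω}) →
      iIndepSet (fun N : ℕ => {ω | N ∈ A ω}) μ →
      ((∃ N₀ : ℕ, ∀ N : ℕ, N₀ ≤ N → (∀ q : ℕ, q.Prime → q ∣ N → 11 < q) →
          (Real.log N) ^ (-β) ≤ μ.real {ω | N ∈ A ω}) →
        ∀ᵐ ω ∂μ, ∃ n₀ : ℕ, ∀ n : ℕ, n₀ ≤ n → Odd n →
          ∃ T : Finset ℕ, (n : ℝ) ^ (1 - β / 2 - ε) ≤ (T.card : ℝ) ∧ ∀ N ∈ T, N ∈ A ω ∧ Value n N) ∧
      (∀ z : ℝ, (∃ N₀ : ℕ, ∀ N : ℕ, N₀ ≤ N → (∀ q : ℕ, q.Prime → q ∣ N → z < q) →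
          (Real.log N) ^ (-β) ≤ μ.real {ω | N ∈ A ω}) →
        ∀ᵐ ω ∂μ, ∃ n₀ : ℕ, ∀ n : ℕ, n₀ ≤ n → Suitable n z →
          ∃ T : Finset ℕ, (n : ℝ) ^ (1 - β / 2 - ε) ≤ (T.card : ℝ) ∧ ∀ N ∈ T, N ∈ A ω ∧ Value n N) ∧
      (∀ K : ℝ, (∃ N₀ : ℕ, ∀ N : ℕ, N₀ ≤ N →
          (∀ q : ℕ, q.Prime → q ∣ N → K * Real.log (Real.log N) < q) →
          (Real.log N) ^ (-β) ≤ μ.real {ω | N ∈ A ω}) →
        ∀ᵐ ω ∂μ, ∃ n₀ : ℕ, ∀ n : ℕ, n₀ ≤ n → Suitable n (K * Real.log n) →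
          ∃ T : Finset ℕ, (n : ℝ) ^ (1 - β / 2 - ε) ≤ (T.card : ℝ) ∧ ∀ N ∈ T, N ∈ A ω ∧ Value n N) := by
  exact (all_parts ε hε).2 β hβ hβε

end Pool.Agent.Results.MP_f6c7cf_nt.RandomPrimes
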